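import Pool.Agent.W187.CV.Stm
import Pool.Agent.W189.ML.Grow

/-! Absolute convergence of the rotated means. -/

set_option autoImplicit false

namespace Pool.Agent.W125.CV

open Complex MeasureTheory Filter Topology Set
open Pool.Agent.W189.ML Pool.Agent.W187.UR Pool.Agent.W187.S2 Pool.Agent.W187.CV

theorem norm_kk (γ u : ℝ) (hu : 0 ≤ u) : ‖kk γ u‖ = om u := by
  unfold kk
  rw [norm_mul, Complex.norm_exp_ofReal_mul_I, one_mul, Complex.norm_real, Real.norm_eq_abs,
    abs_of_nonneg (om_nonneg hu)]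

theorem absc : S_ABS := by
  intro ι lam b σ hlam hs γ T hT
  have hA : 0 ≤ |σ| * T := by positivity
  refine Summable.of_nonneg_of_le (fun i => norm_nonneg _) (fun i => ?_)
    (hs.mul_left (Real.exp (Real.exp (|σ| * T)) + 1))
  have hu : 0 ≤ lam i / T := div_nonneg (hlam i) hT.le
  rw [norm_mul, norm_kk γ _ hu]
  have h1 := om_le hA hu
  have h2 : |σ| * T * (lam i / T) = |σ| * lam i := by
    field_simp
  rw [h2] at h1
  have h3 : Real.exp (-(|σ| * lam i)) ≤ Real.exp (-(σ * lam i)) := by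
    apply Real.exp_le_exp.2
    have := mul_le_mul_of_nonneg_right (le_abs_self σ) (hlam i)
    linarith
  have h4 : 0 < Real.exp (Real.exp (|σ| * T)) + 1 := by positivity
  calc ‖b i‖ * om (lam i / T)
      ≤ ‖b i‖ * ((Real.exp (Real.exp (|σ| * T)) + 1) * Real.exp (-(σ * lam i))) :=
        mul_le_mul_of_nonneg_left (h1.trans (mul_le_mul_of_nonneg_left h3 h4.le)) (norm_nonneg _)
    _ = (Real.exp (Real.exp (|σ| * T)) + 1) * (‖b i‖ * Real.exp (-(σ * lam i))) := by ring

end Pool.Agent.W125.CV
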