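import Pool.Agent.W223.CV.Stms

/-!
# CV-HT: the truncated counting function and the height
-/

set_option autoImplicit false

namespace Pool.Agent.W125.CV

open NumberField IsDedekindDomain Height
open Pool.Agent.W223.VD (cnt)
open Pool.Agent.W223.CV

variable {L : Type} [Field L] [NumberField L]

/-- the absolute value at the prime `v` -/
noncomputable def fv (v : HeightOneSpectrum (𝓞 L)) : AbsoluteValue L ℝ := (FinitePlace.mk v).1

lemma fv_apply (v : HeightOneSpectrum (𝓞 L)) (x : L) : fv v x = FinitePlace.mk v x := rfl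

lemma fv_eq (v : HeightOneSpectrum (𝓞 L)) (x : L) : fv v x =
    WithZeroMulInt.toNNReal (HeightOneSpectrum.absNorm_ne_zero v) (v.valuation L x) := by
  rw [fv_apply, FinitePlace.mk_apply, FinitePlace.norm_embedding']

lemma fv_support_finite {x : L} (hx : x ≠ 0) :
    {v : HeightOneSpectrum (𝓞 L) | fv v x ≠ 1}.Finite := by
  have h := FinitePlace.hasFiniteMulSupport (K := L) hx
  have h2 : {v : HeightOneSpectrum (𝓞 L) | fv v x ≠ 1} =
      (fun v => FinitePlace.mk v) ⁻¹' (Function.mulSupport (fun w : FinitePlace L => w x)) := by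
    ext v
    simp [Function.mulSupport, fv_apply]
  rw [h2]
  exact Set.Finite.preimage (fun a _ b _ hab => FinitePlace.mk_eq_iff.mp hab) h

lemma max_support_finite (x : L) :
    {v : HeightOneSpectrum (𝓞 L) | max (fv v x) 1 ≠ 1}.Finite := by
  by_cases hx : x = 0
  · have : {v : HeightOneSpectrum (𝓞 L) | max (fv v x) 1 ≠ 1} = ∅ := by
      ext v
      simp [hx]
    rw [this]
    exact Set.finite_empty
  · refine (fv_support_finite hx).subset fun v hv h1 => hv ?_
    rw [h1, max_self]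

lemma height_sum (x : L) (T : Finset (HeightOneSpectrum (𝓞 L)))
    (hT : ∀ v, max (fv v x) 1 ≠ 1 → v ∈ T) :
    Real.log (mulHeight₁ x) = ∑ w : InfinitePlace L, (w.mult : ℝ) * Real.log (max (w x) 1) +
      ∑ v ∈ T, Real.log (max (fv v x) 1) := by
  classical
  have e : ∏ᶠ v : FinitePlace L, max (v x) 1 =
      ∏ᶠ v : HeightOneSpectrum (𝓞 L), max (fv v x) 1 := by
    rw [← finprod_comp_equiv (FinitePlace.equivHeightOneSpectrum (K := L)).symm]
    rfl
  have e2 : ∏ᶠ v : HeightOneSpectrum (𝓞 L), max (fv v x) 1 = ∏ v ∈ T, max (fv v x) 1 :=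
    finprod_eq_prod_of_mulSupport_subset _ fun v hv => hT v hv
  have hp : ∀ r : ℝ, (0 : ℝ) < max r 1 := fun r => lt_max_of_lt_right one_pos
  have h4 : ∀ w : InfinitePlace L, (max (w x) 1 ^ w.mult : ℝ) ≠ 0 := fun w =>
    (pow_pos (hp _) _).ne'
  rw [NumberField.mulHeight₁_eq, e, e2,
    Real.log_mul (Finset.prod_ne_zero_iff.2 fun w _ => h4 w)
      (Finset.prod_ne_zero_iff.2 fun v _ => (hp _).ne'),
    Real.log_prod fun w _ => h4 w, Real.log_prod fun v _ => (hp _).ne']
  congr 1
  refine Finset.sum_congr rfl fun w _ => ?_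
  rw [Real.log_pow]

/-- the product formula as a finite sum -/
lemma prod_sum {u : L} (hu : u ≠ 0)
    (T : Finset (HeightOneSpectrum (𝓞 L))) (hT : ∀ v, fv v u ≠ 1 → v ∈ T) :
    (0 : ℝ) = ∑ w : InfinitePlace L, (w.mult : ℝ) * Real.log (w u) +
      ∑ v ∈ T, Real.log (fv v u) := by
  classical
  have h := NumberField.prod_abs_eq_one hu
  have e : ∏ᶠ v : FinitePlace L, v u = ∏ᶠ v : HeightOneSpectrum (𝓞 L), fv v u := by
    rw [← finprod_comp_equiv (FinitePlace.equivHeightOneSpectrum (K := L)).symm]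
    rfl
  have e2 : ∏ᶠ v : HeightOneSpectrum (𝓞 L), fv v u = ∏ v ∈ T, fv v u :=
    finprod_eq_prod_of_mulSupport_subset _ fun v hv => hT v hv
  rw [e, e2] at h
  have h1 := congrArg Real.log h
  have h4 : ∀ w : InfinitePlace L, (w u ^ w.mult : ℝ) ≠ 0 := fun w =>
    (pow_pos (w.1.pos_iff.2 hu) _).ne'
  rw [Real.log_one, Real.log_mul (Finset.prod_ne_zero_iff.2 fun w _ => h4 w)
      (Finset.prod_ne_zero_iff.2 fun v _ => ((fv v).pos_iff.2 hu).ne'),
    Real.log_prod fun w _ => h4 w, Real.log_prod fun v _ => ((fv v).pos_iff.2 hu).ne'] at h1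
  rw [← h1]
  congr 1
  refine Finset.sum_congr rfl fun w _ => ?_
  rw [Real.log_pow]

lemma fv_int (v : HeightOneSpectrum (𝓞 L)) (n : ℤ) : fv v (n : L) ≤ 1 := by
  rw [fv_apply, FinitePlace.mk_apply, FinitePlace.norm_embedding]
  exact HeightOneSpectrum.adicAbv_intCast_le_one L v n

lemma fv_lin (v : HeightOneSpectrum (𝓞 L)) (P : ℤ × ℤ) (x : L) :
    fv v (lin P x) ≤ max (fv v x) 1 := by
  have h1 : fv v ((P.1 : L) + -(x * (P.2 : L))) ≤
      max (fv v (P.1 : L)) (fv v (-(x * (P.2 : L)))) := by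
    have h2 := HeightOneSpectrum.adicAbv_add_le_max L v (P.1 : L) (-(x * (P.2 : L)))
    rw [← FinitePlace.norm_embedding, ← FinitePlace.norm_embedding,
      ← FinitePlace.norm_embedding] at h2
    exact h2
  unfold lin
  rw [sub_eq_add_neg]
  refine h1.trans (max_le ((fv_int v _).trans (le_max_right _ _)) ?_)
  rw [AbsoluteValue.map_neg, map_mul]
  calc fv v x * fv v (P.2 : L) ≤ fv v x * 1 :=
        mul_le_mul_of_nonneg_left (fv_int v _) ((fv v).nonneg _)
    _ ≤ max (fv v x) 1 := by rw [mul_one]; exact le_max_left _ _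

omit [NumberField L] in
lemma inf_lin (w : InfinitePlace L) (P : ℤ × ℤ) (x : L) :
    w (lin P x) ≤ (|(P.1 : ℝ)| + |(P.2 : ℝ)|) * max (w x) 1 := by
  have h0 : ∀ n : ℤ, w (n : L) = |(n : ℝ)| := by
    intro n
    rw [← InfinitePlace.norm_embedding_eq w, map_intCast, Complex.norm_intCast]
  unfold lin
  have h1 : w ((P.1 : L) - x * (P.2 : L)) ≤ w (P.1 : L) + w (x * (P.2 : L)) := by
    have h2 : w.1 ((P.1 : L) + -(x * (P.2 : L))) ≤ w.1 (P.1 : L) + w.1 (-(x * (P.2 : L))) :=
      w.1.add_le _ _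
    rw [← sub_eq_add_neg, AbsoluteValue.map_neg] at h2
    exact h2
  refine h1.trans ?_
  rw [map_mul, h0, h0, add_mul]
  have h2 := le_max_left (w x) 1
  have h3 := le_max_right (w x) 1
  have h4 := abs_nonneg (P.1 : ℝ)
  have h5 := abs_nonneg (P.2 : ℝ)
  nlinarith

theorem t : Pool.Agent.W223.CV.StmtHT := by
  classical
  intro L _ _ S P x e hz he hyp
  set z : L := lin P x with hzd
  set T : Finset (HeightOneSpectrum (𝓞 L)) := (fv_support_finite hz).toFinset ∪
    (max_support_finite x).toFinset with hT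
  have hT1 : ∀ v, fv v z ≠ 1 → v ∈ T := fun v hv =>
    Finset.mem_union_left _ ((Set.Finite.mem_toFinset _).2 hv)
  have hT2 : ∀ v, max (fv v x) 1 ≠ 1 → v ∈ T := fun v hv =>
    Finset.mem_union_right _ ((Set.Finite.mem_toFinset _).2 hv)
  have hp : ∀ r : ℝ, (0 : ℝ) < max r 1 := fun r => lt_max_of_lt_right one_pos
  have hfz : ∀ v : HeightOneSpectrum (𝓞 L), 0 < fv v z := fun v => (fv v).pos_iff.2 hz
  -- the real form of the condition
  have hmono : ∀ v : HeightOneSpectrum (𝓞 L), StrictMono (WithZeroMulInt.toNNReal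
      (HeightOneSpectrum.absNorm_ne_zero v)) := fun v =>
    WithZeroMulInt.toNNReal_strictMono (HeightOneSpectrum.one_lt_absNorm_nnreal v)
  have hmax : ∀ v : HeightOneSpectrum (𝓞 L), max (fv v x) 1 = WithZeroMulInt.toNNReal
      (HeightOneSpectrum.absNorm_ne_zero v) (max (v.valuation L x) 1) := by
    intro v
    rw [(hmono v).monotone.map_max, map_one, NNReal.coe_max, NNReal.coe_one, fv_eq]
  set c : HeightOneSpectrum (𝓞 L) → ℝ := fun v =>
    if (∀ p ∈ S, (p : 𝓞 L) ∉ v.asIdeal) ∧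
      ∃ _j : Fin 1, v.valuation L ((P.1 : L) - x * (P.2 : L)) < max (v.valuation L x) 1
    then Real.log (Ideal.absNorm v.asIdeal) else 0 with hc
  have hcle : ∀ v, (e : ℝ) * c v ≤ Real.log (max (fv v x) 1) - Real.log (fv v z) := by
    intro v
    by_cases h : (∀ p ∈ S, (p : 𝓞 L) ∉ v.asIdeal) ∧
      ∃ _j : Fin 1, v.valuation L ((P.1 : L) - x * (P.2 : L)) < max (v.valuation L x) 1
    · have hcv : c v = Real.log (Ideal.absNorm v.asIdeal) := if_pos h
      obtain ⟨h1, _, h2⟩ := h
      have h3 := hyp v h1 h2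
      have h4 := (hmono v).monotone h3
      have h5 : fv v z ≤ max (fv v x) 1 * ((Ideal.absNorm v.asIdeal : ℝ) ^ e)⁻¹ := by
        rw [fv_eq, hmax]
        rw [map_mul] at h4
        have h6 : WithZeroMulInt.toNNReal (HeightOneSpectrum.absNorm_ne_zero v)
            (WithZero.exp (-(e : ℤ))) = ((Ideal.absNorm v.asIdeal : NNReal) ^ e)⁻¹ := by
          rw [WithZeroMulInt.toNNReal_neg_apply _ WithZero.exp_ne_zero]
          have h7 : (WithZero.unzero (WithZero.exp_ne_zero (a := (-(e : ℤ))))).toAdd =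
            -(e : ℤ) := rfl
          rw [h7, zpow_neg, zpow_natCast]
        rw [h6] at h4
        have h8 := NNReal.coe_le_coe.2 h4
        push_cast at h8
        exact h8
      have hN : (1 : ℝ) < (Ideal.absNorm v.asIdeal : ℝ) := by
        exact_mod_cast HeightOneSpectrum.one_lt_absNorm v
      have hN0 : (0 : ℝ) < (Ideal.absNorm v.asIdeal : ℝ) := by linarith
      have h9 := Real.log_le_log (hfz v) h5
      rw [Real.log_mul (hp _).ne' (inv_ne_zero (pow_pos hN0 e).ne'), Real.log_inv,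
        Real.log_pow] at h9
      rw [hcv]
      linarith
    · have hcv : c v = 0 := if_neg h
      rw [hcv, mul_zero, sub_nonneg]
      exact Real.log_le_log (hfz v) (fv_lin v P x)
  have hcnt : cnt S (fun _ : Fin 1 => P) x = ∑ v ∈ T, c v := by
    unfold cnt
    refine finsum_eq_sum_of_support_subset _ fun v hv => ?_
    by_contra hvT
    have h1 : fv v z = 1 := by
      by_contra h
      exact hvT (hT1 v h)
    have h2 : max (fv v x) 1 = 1 := by
      by_contra h
      exact hvT (hT2 v h)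
    refine hv (if_neg ?_)
    rintro ⟨_, _, h3⟩
    have h4 := hmono v h3
    have h5 : fv v z < max (fv v x) 1 := by
      rw [fv_eq, hmax]
      exact h4
    rw [h1, h2] at h5
    exact lt_irrefl _ h5
  rw [hcnt, Finset.mul_sum]
  have h1 := height_sum x T hT2
  have h2 := prod_sum hz T hT1
  have h3 : ∑ v ∈ T, (e : ℝ) * c v ≤ ∑ v ∈ T, Real.log (max (fv v x) 1) -
      ∑ v ∈ T, Real.log (fv v z) := by
    rw [← Finset.sum_sub_distrib]
    exact Finset.sum_le_sum fun v _ => hcle v
  have h4 : ∑ w : InfinitePlace L, (w.mult : ℝ) * Real.log (w z) ≤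
      ∑ w : InfinitePlace L, (w.mult : ℝ) * Real.log (max (w x) 1) +
        Module.finrank ℚ L * Real.log (|(P.1 : ℝ)| + |(P.2 : ℝ)|) := by
    rw [← InfinitePlace.sum_mult_eq, Nat.cast_sum, Finset.sum_mul, ← Finset.sum_add_distrib]
    refine Finset.sum_le_sum fun w _ => ?_
    rw [← mul_add]
    refine mul_le_mul_of_nonneg_left ?_ (Nat.cast_nonneg _)
    have hw : 0 < w z := w.1.pos_iff.2 hz
    have h5 := inf_lin w P x
    have hA : 0 < |(P.1 : ℝ)| + |(P.2 : ℝ)| := by
      by_contra hA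
      have h6 : |(P.1 : ℝ)| + |(P.2 : ℝ)| = 0 := le_antisymm (not_lt.1 hA) (by positivity)
      rw [h6, zero_mul] at h5
      exact absurd hw (not_lt.2 h5)
    have h7 := Real.log_le_log hw h5
    rw [Real.log_mul hA.ne' (hp _).ne'] at h7
    linarith
  linarith

end Pool.Agent.W125.CV
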